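import Pool.Agent.helper62.RS.SpecE

/-!
# MP_07c750, rare scars, block E: row EP1
-/

open scoped MatrixGroups ContDiff Topology UpperHalfPlane ComplexConjugate
open UpperHalfPlane MeasureTheory Filter Set

namespace Pool.Agent.RS

/-- the numbers -/
theorem EP1_num (q ε lam δ C k T m n Zl R : ℝ) (hlam : 0 < lam) (hT : 0 < T) (hk : 0 ≤ k)
    (hn : 0 ≤ n) (hR : 0 < R) (hTR : T = R - k) (hZ : Zl ≤ -q * T)
    (hδ : 100 * δ * lam ≤ ε / 2) (hC : k + C ≤ ε * T)
    (h : -(200 * δ) - 2 * m ≤ (R + C + 2 * Zl - n) / (lam * T)) :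
    q - (1 / 2) * (1 - n / R) - ε ≤ lam * m := by
  rw [le_div_iff₀ (by positivity)] at h
  -- first form
  have h1 : 2 * m * lam * T ≥ -R - C + n + 2 * q * T - 200 * δ * lam * T := by nlinarith
  have h2 : (R - n + C) / T ≤ (R - n) / R + ε := by
    have e1 : (R - n) / T - (R - n) / R ≤ k / T := by
      have e2 : (R - n) / T - (R - n) / R = (R - n) / R * (k / T) := by
        rw [hTR]
        have : R - k ≠ 0 := by rw [← hTR]; exact hT.ne'
        field_simp
        ring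
      rw [e2]
      have e3 : (R - n) / R ≤ 1 := by
        rw [div_le_one hR]; linarith
      have e4 : 0 ≤ k / T := by positivity
      nlinarith
    have e5 : (R - n + C) / T = (R - n) / T + C / T := by ring
    have e6 : k / T + C / T ≤ ε := by
      rw [← add_div, div_le_iff₀ hT]
      exact hC
    rw [e5]
    linarith
  have h3 : lam * m ≥ q - (R - n + C) / T / 2 - 100 * δ * lam := by
    have e1 : (R - n + C) / T * T = R - n + C := by field_simp
    by_contra hcon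
    push Not at hcon
    have e2 : lam * m * T < (q - (R - n + C) / T / 2 - 100 * δ * lam) * T :=
      mul_lt_mul_of_pos_right hcon hT
    nlinarith
  have h4 : (R - n) / R = 1 - n / R := by
    rw [sub_div, div_self hR.ne']
  rw [h4] at h2
  linarith

theorem EP1_aM : Continuous aM := by
  unfold aM
  refine Continuous.subtype_mk ?_ _
  refine continuous_matrix ?_
  intro i j
  fin_cases i <;> fin_cases j <;> simp <;> fun_prop

/-- integrability of bounded continuous functions on `F` -/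
theorem EP1_int (F : Set ℍ) (hFm : MeasurableSet F) (hF : volume F < ⊤) (f : ℍ → ℝ)
    (K : Set ℍ) (hK : IsCompact K) (hFK : F ⊆ K) (hf : Continuous f) : IntegrableOn f F := by
  obtain ⟨C, hC⟩ := hK.exists_bound_of_continuousOn hf.continuousOn
  refine IntegrableOn.of_bound hF hf.aestronglyMeasurable C ?_
  exact (ae_restrict_iff' hFm).2 (Eventually.of_forall (fun z hz => hC z (hFK hz)))

/-- the exponential integral is positive -/
theorem EP1_pos (F : Set ℍ) (hm : MeasurableSet (dG F)) (h0 : mG (dG F) ≠ 0) (hfin : mG (dG F) < ⊤)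
    (V : ℍ → ℝ) (hV : Continuous V) (hV1 : ∀ z, 0 ≤ V z ∧ V z ≤ 1) (lam T : ℝ) (hlam : 0 ≤ lam)
    (hT : 0 ≤ T) :
    0 < iR F (fun g => Real.exp (-lam * ∫ t in (0 : ℝ)..T, V ((g * aM t) • I))) := by
  have : IsFiniteMeasure (mG.restrict (dG F)) := ⟨by rwa [Measure.restrict_apply_univ]⟩
  have hc1 : Continuous (fun p : SL(2, ℝ) × ℝ => V ((p.1 * aM p.2) • I)) := by
    refine hV.comp ?_
    exact (continuous_fst.mul (EP1_aM.comp continuous_snd)).smul continuous_const
  have hc2 : Continuous (fun g : SL(2, ℝ) => ∫ t in (0 : ℝ)..T, V ((g * aM t) • I)) := by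
    exact intervalIntegral.continuous_parametric_intervalIntegral_of_continuous' hc1 0 T
  have hc3 : Continuous (fun g : SL(2, ℝ) =>
      Real.exp (-lam * ∫ t in (0 : ℝ)..T, V ((g * aM t) • I))) :=
    Real.continuous_exp.comp (continuous_const.mul hc2)
  have hi0 : ∀ g : SL(2, ℝ), 0 ≤ ∫ t in (0 : ℝ)..T, V ((g * aM t) • I) := fun g =>
    intervalIntegral.integral_nonneg hT (fun t _ => (hV1 _).1)
  have hcg : ∀ g : SL(2, ℝ), Continuous (fun t : ℝ => V ((g * aM t) • I)) := by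
    intro g
    refine hV.comp ?_
    exact (continuous_const.mul EP1_aM).smul continuous_const
  have hi1 : ∀ g : SL(2, ℝ), ∫ t in (0 : ℝ)..T, V ((g * aM t) • I) ≤ T := by
    intro g
    have hc : Continuous (fun _ : ℝ => (1 : ℝ)) := continuous_const
    have h := intervalIntegral.integral_mono_on hT ((hcg g).intervalIntegrable 0 T)
      (hc.intervalIntegrable (μ := volume) 0 T) (fun t _ => (hV1 ((g * aM t) • I)).2)
    rwa [intervalIntegral.integral_const, sub_zero, smul_eq_mul, mul_one] at h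
  have hint : Integrable (fun g : SL(2, ℝ) =>
      Real.exp (-lam * ∫ t in (0 : ℝ)..T, V ((g * aM t) • I))) (mG.restrict (dG F)) := by
    refine Integrable.of_bound hc3.aestronglyMeasurable 1 (Eventually.of_forall (fun g => ?_))
    rw [Real.norm_eq_abs, abs_of_pos (Real.exp_pos _), Real.exp_le_one_iff]
    have := mul_nonneg hlam (hi0 g)
    linarith
  have hle : ∫ g in dG F, Real.exp (-lam * T) ∂mG ≤
      iR F (fun g => Real.exp (-lam * ∫ t in (0 : ℝ)..T, V ((g * aM t) • I))) := by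
    refine integral_mono (integrable_const _) hint (fun g => ?_)
    refine Real.exp_le_exp.2 ?_
    have := mul_le_mul_of_nonneg_left (hi1 g) hlam
    linarith
  refine lt_of_lt_of_le ?_ hle
  rw [integral_const, smul_eq_mul]
  refine mul_pos ?_ (Real.exp_pos _)
  rw [measureReal_restrict_apply_univ]
  exact ENNReal.toReal_pos h0 hfin.ne

theorem EP1_cont (φ : ℍ → ℂ) (n : WithTop ℕ∞) (h : QU.CD n φ) : Continuous φ := by
  have h1 : ContinuousOn (QU.onC φ) {w : ℂ | 0 < w.im} := h.continuousOn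
  have h2 : Continuous (fun z : ℍ => QU.onC φ (z : ℂ)) :=
    h1.comp_continuous UpperHalfPlane.continuous_coe (fun z => z.im_pos)
  have h3 : (fun z : ℍ => QU.onC φ (z : ℂ)) = φ := by
    funext z
    simp only [QU.onC, ofComplex_apply]
  rwa [h3] at h2

/-- the mass of an eigenfunction is one -/
theorem EP1_one (F : Set ℍ) (φ : ℍ → ℂ)
    (h : ∫ z in F, φ z * (starRingEnd ℂ) (φ z) = 1) : ∫ z in F, ‖φ z‖ ^ 2 = 1 := by
  have h1 : ∀ z, φ z * (starRingEnd ℂ) (φ z) = ((‖φ z‖ ^ 2 : ℝ) : ℂ) := by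
    intro z
    rw [Complex.mul_conj']
    push_cast
    rfl
  simp only [h1] at h
  rw [integral_complex_ofReal] at h
  exact_mod_cast h

theorem EP1 (hGFD : GFD_stmt) (hGBD : GBD_stmt) (hPKT : PKT_stmt) (hEKB : EKB_stmt) (hEIN : EIN_stmt) (hENM : ENM_stmt) : EP1_stmt := by
  intro Γ F V lam q hΓ hF hV hV2 hV01 hlam hT₀ ε hε
  obtain ⟨T₀, hT₀⟩ := hT₀
  -- the parameter
  obtain ⟨δ, hδ0, hδ1, hδ2⟩ : ∃ δ : ℝ, 0 < δ ∧ δ ≤ 1 / 24 ∧ 100 * δ * lam ≤ ε / 2 := by
    refine ⟨min (1 / 24) (ε / (200 * lam)), ?_, min_le_left _ _, ?_⟩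
    · refine lt_min (by norm_num) (by positivity)
    · have h1 : min (1 / 24) (ε / (200 * lam)) ≤ ε / (200 * lam) := min_le_right _ _
      rw [le_div_iff₀ (by positivity)] at h1
      linarith
  have hη0 : 0 < δ ^ 2 := by positivity
  have hη1 : δ ^ 2 ≤ 1 / 4 := by nlinarith
  obtain ⟨c, A, K₀, r0, hcTB, hcr, hA, hK0, hr0, hP⟩ := hPKT Γ F V hΓ hF hV hV2
    (fun z => (hV01 z).1) (fun z => (hV01 z).2) (δ ^ 2) hη0
  obtain ⟨n, hn1, hn⟩ := hEKB Γ F hΓ hF
  have hTB : TB (1 / 4) c := ⟨hcTB.1, fun z hz =>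
    ⟨(hcTB.2 z hz).1.trans hη1, (hcTB.2 z hz).2.trans hη1⟩⟩
  obtain ⟨K, hK1, hKK⟩ : ∃ K : ℝ, 1 ≤ K ∧ K₀ ≤ K := ⟨max K₀ 1, le_max_right _ _, le_max_left _ _⟩
  have hK : 0 < K := by linarith
  have hn0 : (0 : ℝ) < n := by exact_mod_cast hn1
  obtain ⟨C, hC⟩ : ∃ C : ℝ, C = 2 * Real.log (n * K / A) := ⟨_, rfl⟩
  obtain ⟨T₁, hT₁⟩ : ∃ T₁ : ℝ, T₁ = max T₀ (max 1 (max (2 * δ / lam) ((Real.log K + C) / ε))) :=
    ⟨_, rfl⟩
  have hT1a : T₀ ≤ T₁ := by rw [hT₁]; exact le_max_left _ _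
  have hT1b : 1 ≤ T₁ := by rw [hT₁]; exact (le_max_left _ _).trans (le_max_right _ _)
  have hT1c : 2 * δ / lam ≤ T₁ := by
    rw [hT₁]; exact (le_max_left _ _).trans ((le_max_right _ _).trans (le_max_right _ _))
  have hT1d : (Real.log K + C) / ε ≤ T₁ := by
    rw [hT₁]; exact (le_max_right _ _).trans ((le_max_right _ _).trans (le_max_right _ _))
  refine ⟨max r0 (max 2 (K * Real.exp T₁)), ?_, fun r N s φ hr hN hfam => ?_⟩
  · exact lt_of_lt_of_le (by norm_num) ((le_max_left _ _).trans (le_max_right _ _))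
  have hrr0 : r0 ≤ r := (le_max_left _ _).trans hr
  have hr2 : 2 ≤ r := ((le_max_left _ _).trans (le_max_right _ _)).trans hr
  have hrK : K * Real.exp T₁ ≤ r := ((le_max_right _ _).trans (le_max_right _ _)).trans hr
  have hrpos : 0 < r := by linarith
  obtain ⟨hPa, hPb, hPc⟩ := hP r hrr0
  obtain ⟨T, hT⟩ : ∃ T : ℝ, T = Real.log r - Real.log K := ⟨_, rfl⟩
  have hexpT : Real.exp T = r / K := by
    rw [hT, Real.exp_sub, Real.exp_log hrpos, Real.exp_log hK]
  have hTT1 : T₁ ≤ T := by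
    have h1 : Real.exp T₁ ≤ Real.exp T := by
      rw [hexpT, le_div_iff₀ hK]
      linarith [mul_comm K (Real.exp T₁)]
    exact Real.exp_le_exp.1 h1
  have hT0 : 0 < T := by linarith
  -- the data
  have hmas : ∀ j, ∫ z in F, ‖φ j z‖ ^ 2 = 1 := fun j =>
    EP1_one F (φ j) (by have h := hfam.2.2 j j; rwa [if_pos rfl] at h)
  obtain ⟨⟨hdm, hdv, hdf, _⟩, _⟩ := hGFD Γ F hΓ hF
  obtain ⟨KF, hKF, hFKF⟩ := hF.rel
  have hvF : volume F < ⊤ := by rw [← hdv]; exact hdf
  have hφc : ∀ j, Continuous (φ j) := fun j => EP1_cont (φ j) _ (hfam.2.1 j).1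
  have hv0 : volume F ≠ 0 := by
    intro h0
    have h1 := hmas ⟨0, by omega⟩
    rw [Measure.restrict_eq_zero.2 h0, integral_zero_measure] at h1
    exact zero_ne_one h1
  have hi1 : ∀ j, IntegrableOn (fun z => ‖φ j z‖ ^ 2) F := fun j =>
    EP1_int F hF.meas hvF _ KF hKF hFKF ((hφc j).norm.pow 2)
  have hi2 : ∀ j, IntegrableOn (fun z => V z * ‖φ j z‖ ^ 2) F := fun j =>
    EP1_int F hF.meas hvF _ KF hKF hFKF (hV.1.mul ((hφc j).norm.pow 2))
  have hj0 : ∀ j, 0 ≤ ∫ z in F, V z * ‖φ j z‖ ^ 2 := fun j =>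
    integral_nonneg (fun z => mul_nonneg (hV01 z).1 (by positivity))
  have hj1 : ∀ j, ∫ z in F, V z * ‖φ j z‖ ^ 2 ≤ 1 := by
    intro j
    rw [← hmas j]
    refine integral_mono (hi2 j) (hi1 j) (fun z => ?_)
    have h1 : 0 ≤ ‖φ j z‖ ^ 2 := by positivity
    have h2 := mul_le_mul_of_nonneg_right (hV01 z).2 h1
    rwa [one_mul] at h2
  have hNpos : (0 : ℝ) < N := by exact_mod_cast hN
  obtain ⟨m, hm⟩ : ∃ m : ℝ, m = (∑ j, ∫ z in F, V z * ‖φ j z‖ ^ 2) / N := ⟨_, rfl⟩
  have hm0 : 0 ≤ m := by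
    rw [hm]
    exact div_nonneg (Finset.sum_nonneg (fun j _ => hj0 j)) hNpos.le
  have hm1 : m ≤ 1 := by
    rw [hm, div_le_one hNpos]
    have h1 := Finset.sum_le_sum (fun j (_ : j ∈ (Finset.univ : Finset (Fin N))) => hj1 j)
    rw [Finset.sum_const, Finset.card_univ, Fintype.card_fin, nsmul_eq_mul, mul_one] at h1
    exact h1
  -- the two constants
  have hκ : 0 < A / r := by positivity
  have hsr : 0 < Real.sqrt r := Real.sqrt_pos.2 hrpos
  have hk0 : 0 < n * (K / Real.sqrt r) := by positivity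
  have hkk := hn c r (K / Real.sqrt r) hTB (fun g g' => (hPb g g').trans
    (div_le_div_of_nonneg_right hKK hsr.le))
  have hZpos := EP1_pos F hdm (by rw [hdv]; exact hv0) hdf V hV.1 hV01 lam T hlam.le hT0.le
  have hZle := hT₀ T (hT1a.trans hTT1)
  have hEIN2 := hEIN Γ F V c r (A / r) (n * (K / Real.sqrt r)) (δ ^ 2) lam T N s φ hΓ hF hV hV01
    hTB hκ hk0 hη0.le (by linarith) hlam.le hT0.le hN hPa hkk
    (fun s' ψ hs' hψ => ⟨(hPc s' ψ hs' hψ).1, fun t ht0 htT => (hPc s' ψ hs' hψ).2 t ht0 (by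
      have h1 : Real.exp t ≤ r / K := by rw [← hexpT]; exact Real.exp_le_exp.2 htT
      exact h1.trans (div_le_div_of_nonneg_left hrpos.le hK0 hKK))⟩) hfam
  rw [← hm] at hEIN2
  have hENM2 := hENM δ m lam T _ hδ0 hδ1 hm0 hm1 hlam hT0 (by
    rw [div_le_iff₀ (by positivity)]
    have h1 := hT1c.trans hTT1
    rw [div_le_iff₀ hlam] at h1
    linarith) hEIN2
  -- logarithms
  obtain ⟨Z, hZ⟩ : ∃ Z : ℝ, Z = iR F (fun g =>
    Real.exp (-lam * ∫ t in (0 : ℝ)..T, V ((g * aM t) • I))) := ⟨_, rfl⟩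
  rw [← hZ] at hENM2 hZpos hZle
  have hlogZ : Real.log Z ≤ -q * T := by
    have h1 := Real.log_le_log hZpos hZle
    rwa [Real.log_exp] at h1
  have hlog : 2 * Real.log (n * (K / Real.sqrt r) / (A / r)) = Real.log r + C := by
    have h1 : n * (K / Real.sqrt r) / (A / r) = (n * K / A) * Real.sqrt r := by
      have h2 : r = Real.sqrt r * Real.sqrt r := (Real.mul_self_sqrt hrpos.le).symm
      have h3 : Real.sqrt r ≠ 0 := hsr.ne'
      rw [div_div_eq_mul_div]
      rw [show n * (K / Real.sqrt r) * r / A = n * K / A * (r / Real.sqrt r) by ring]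
      rw [show r / Real.sqrt r = Real.sqrt r by
        rw [div_eq_iff h3]; exact h2]
    rw [h1, Real.log_mul (by positivity) hsr.ne', Real.log_sqrt hrpos.le, hC]
    ring
  rw [hlog] at hENM2
  have hfin := EP1_num q ε lam δ C (Real.log K) T m (Real.log N) (Real.log Z) (Real.log r) hlam hT0
    (Real.log_nonneg hK1) (Real.log_nonneg (by exact_mod_cast hN)) (Real.log_pos (by linarith)) hT
    hlogZ hδ2 (by
      have h1 := hT1d.trans hTT1
      rw [div_le_iff₀ hε] at h1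
      linarith [mul_comm T ε]) hENM2
  rw [hm] at hfin
  exact hfin

end Pool.Agent.RS
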