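import Pool.Agent.helper29.RS.SpecK

/-!
# MP_07c750, rare scars, block K: row INB
-/

open scoped MatrixGroups ContDiff Topology UpperHalfPlane ComplexConjugate
open UpperHalfPlane MeasureTheory Filter Set

namespace Pool.Agent.RS

/-- a function of class `C²` on `ℍ` is continuous -/
theorem INB_cont (φ : ℍ → ℂ) (h : QU.CD 2 φ) : Continuous φ := by
  have h1 : ContinuousOn (QU.onC φ) {w : ℂ | 0 < w.im} := h.continuousOn
  have h2 : Continuous (fun z : ℍ => QU.onC φ (z : ℂ)) :=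
    h1.comp_continuous UpperHalfPlane.continuous_coe (fun z => z.im_pos)
  have h3 : (fun z : ℍ => QU.onC φ (z : ℂ)) = φ := by
    funext z
    simp only [QU.onC, ofComplex_apply]
  rwa [h3] at h2

/-- the packet is continuous -/
theorem INB_pk (r : ℝ) (c : ℍ → ℂ) (hc : Continuous c) : Continuous (pk r c) := by
  unfold pk
  refine hc.mul ?_
  refine Continuous.cpow (Complex.continuous_ofReal.comp UpperHalfPlane.continuous_im)
    continuous_const (fun z => ?_)
  exact Complex.ofReal_mem_slitPlane.2 z.im_pos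

/-- the packet has compact support -/
theorem INB_pks (r : ℝ) (c : ℍ → ℂ) (hc : HasCompactSupport c) : HasCompactSupport (pk r c) :=
  HasCompactSupport.mul_right hc

/-- right translates of invariant functions -/
theorem INB_tr (Γ : Subgroup SL(2, ℝ)) (u : SL(2, ℝ) → ℝ) (h : InvG Γ u) (b : SL(2, ℝ)) (k : ℝ) :
    InvG Γ (fun g => k * u (g * b)) := by
  refine ⟨continuous_const.mul (h.1.comp (continuous_id.mul continuous_const)), fun γ g => ?_⟩
  show k * u ((γ : SL(2, ℝ)) * g * b) = k * u (g * b)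
  rw [mul_assoc, h.2]

/-- bounds for all seven functions -/
theorem INB_q (hBK3 : BK3_stmt) (hCV1 : CV1_stmt) (hGR2 : GR2_stmt) (Γ : Subgroup SL(2, ℝ))
    (F : Set ℍ) (hΓ : QU.SurfaceGroup Γ) (hF : QU.NiceDom Γ F) (c : ℍ → ℂ) (hc : TB (1 / 4) c) :
    ∃ K : ℝ, 0 < K ∧ ∀ (r s : ℝ) (φ : ℍ → ℂ), 1 ≤ r → |s - r| ≤ r / 100 →
      EigL Γ (1 / 4 + s ^ 2) φ → qn F c r φ ≤ K / r * nn F φ := by
  obtain ⟨K, hK, h⟩ := (hBK3 (cc c) (hCV1.2.1 c hc).1).1
  refine ⟨K, hK, fun r s φ hr hs hφ => ?_⟩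
  rw [(hGR2 Γ F hΓ hF s φ hφ).2 c r hc]
  have h1 := (h r s hr hs).2
  have h2 : bk (cc c) r s ≤ K / r := by
    rw [le_div_iff₀ (by linarith)]
    linarith [mul_comm r (bk (cc c) r s)]
  have h3 : 0 ≤ nn F φ := integral_nonneg (fun z => by positivity)
  calc nn F φ * bk (cc c) r s ≤ nn F φ * (K / r) := mul_le_mul_of_nonneg_left h2 h3
    _ = K / r * nn F φ := mul_comm _ _

/-- the bound for the sum of the seven terms -/
theorem INB_qS (hBK3 : BK3_stmt) (hCV1 : CV1_stmt) (hFL0 : FL0_stmt) (hGR2 : GR2_stmt)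
    (Γ : Subgroup SL(2, ℝ)) (F : Set ℍ) (hΓ : QU.SurfaceGroup Γ) (hF : QU.NiceDom Γ F)
    (c : ℍ → ℂ) (hc : TB (1 / 4) c) :
    ∃ K : ℝ, 0 < K ∧ ∀ (r s : ℝ) (φ : ℍ → ℂ), 1 ≤ r → |s - r| ≤ r / 100 →
      EigL Γ (1 / 4 + s ^ 2) φ → qS F c r φ ≤ K / r * nn F φ := by
  have hst := hFL0.1
  have hpx := (hst _ c hc).1
  have hxm := (hst _ c hc).2.1
  have hkw := (hst _ c hc).2.2.2.1
  have hlap := (hst _ c hc).2.2.2.2.1
  have hxp := (hst _ _ hpx).2.1
  have hkp := (hst _ _ hpx).2.2.2.1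
  obtain ⟨K1, p1, h1⟩ := INB_q hBK3 hCV1 hGR2 Γ F hΓ hF c hc
  obtain ⟨K2, p2, h2⟩ := INB_q hBK3 hCV1 hGR2 Γ F hΓ hF _ hxm
  obtain ⟨K3, p3, h3⟩ := INB_q hBK3 hCV1 hGR2 Γ F hΓ hF _ hpx
  obtain ⟨K4, p4, h4⟩ := INB_q hBK3 hCV1 hGR2 Γ F hΓ hF _ hxp
  obtain ⟨K5, p5, h5⟩ := INB_q hBK3 hCV1 hGR2 Γ F hΓ hF _ hkw
  obtain ⟨K6, p6, h6⟩ := INB_q hBK3 hCV1 hGR2 Γ F hΓ hF _ hkp
  obtain ⟨K7, p7, h7⟩ := INB_q hBK3 hCV1 hGR2 Γ F hΓ hF _ hlap
  refine ⟨K1 + K2 + K3 + K4 + K5 + K6 + K7, by positivity, fun r s φ hr hs hφ => ?_⟩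
  have e1 := h1 r s φ hr hs hφ
  have e2 := h2 r s φ hr hs hφ
  have e3 := h3 r s φ hr hs hφ
  have e4 := h4 r s φ hr hs hφ
  have e5 := h5 r s φ hr hs hφ
  have e6 := h6 r s φ hr hs hφ
  have e7 := h7 r s φ hr hs hφ
  unfold qS
  have e : (K1 + K2 + K3 + K4 + K5 + K6 + K7) / r * nn F φ =
      K1 / r * nn F φ + K2 / r * nn F φ + K3 / r * nn F φ + K4 / r * nn F φ + K5 / r * nn F φ +
        K6 / r * nn F φ + K7 / r * nn F φ := by ring
  rw [e]
  linarith

/-- differentiation of the integral along the flow -/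
theorem INB_der (S : Set SL(2, ℝ)) (hS2 : mG S < ⊤)
    (U Ua : SL(2, ℝ) → ℝ) (P : SL(2, ℝ) → ℝ) (B m : ℝ)
    (hU : Continuous U) (hUa : Continuous Ua) (hP : Continuous P)
    (hUB : ∀ g, |U g| ≤ B) (hUaB : ∀ g, |Ua g| ≤ B) (hPm : ∀ g, |P g| ≤ m)
    (hd : ∀ (g : SL(2, ℝ)) (t : ℝ), HasDerivAt (fun t => U (g * aM t)) (Ua (g * aM t)) t)
    (t : ℝ) :
    HasDerivAt (fun t => ∫ g in S, U (g * aM t) * P g ∂mG)
      (∫ g in S, Ua (g * aM t) * P g ∂mG) t := by
  have : IsFiniteMeasure (mG.restrict S) := ⟨by rwa [Measure.restrict_apply_univ]⟩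
  have hm0 : 0 ≤ m := le_trans (abs_nonneg _) (hPm 1)
  have hB0 : 0 ≤ B := le_trans (abs_nonneg _) (hUB 1)
  have hcm : ∀ (W : SL(2, ℝ) → ℝ) (t : ℝ), Continuous W →
      Continuous (fun g => W (g * aM t) * P g) := fun W t hW =>
    (hW.comp (continuous_id.mul continuous_const)).mul hP
  have hint : Integrable (fun _ : SL(2, ℝ) => B * m) (mG.restrict S) := integrable_const _
  refine (hasDerivAt_integral_of_dominated_loc_of_deriv_le (μ := mG.restrict S)
    (F := fun t g => U (g * aM t) * P g) (F' := fun t g => Ua (g * aM t) * P g) (x₀ := t)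
    (s := univ) (bound := fun _ => B * m) univ_mem ?_ ?_ ?_ ?_ hint ?_).2
  · exact Eventually.of_forall (fun t => (hcm U t hU).aestronglyMeasurable)
  · refine Integrable.mono' hint (hcm U t hU).aestronglyMeasurable
      (Eventually.of_forall (fun g => ?_))
    rw [Real.norm_eq_abs, abs_mul]
    exact mul_le_mul (hUB _) (hPm _) (abs_nonneg _) hB0
  · exact (hcm Ua t hUa).aestronglyMeasurable
  · refine Eventually.of_forall (fun g t _ => ?_)
    rw [Real.norm_eq_abs, abs_mul]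
    exact mul_le_mul (hUaB _) (hPm _) (abs_nonneg _) hB0
  · exact Eventually.of_forall (fun g t _ => (hd g t).mul_const _)

theorem INB (hGLC : GLC_stmt) (hGMG : GMG_stmt) (hGFD : GFD_stmt) (hGBD : GBD_stmt) (hGWB : GWB_stmt) (hBK3 : BK3_stmt) (hCV1 : CV1_stmt) (hFL0 : FL0_stmt) (hGR2 : GR2_stmt) (hIN0 : IN0_stmt) (hINA : INA_stmt) : INB_stmt := by
  intro Γ F V hΓ hF hV hVs
  obtain ⟨Va, Vn, Vl, B, hB, iVa, iVn, iVl, iV, hb, hd⟩ := hIN0 Γ V hΓ hV hVs
  refine ⟨B, hB, fun c hc hcr => ?_⟩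
  obtain ⟨K, hK, hqS⟩ := INB_qS hBK3 hCV1 hFL0 hGR2 Γ F hΓ hF c hc
  refine ⟨40 * B * K, by positivity, fun r s t φ hr hs hs2 ht hφ => ?_⟩
  have haM := hGLC.2.2.2.2.2.2.2.2.2.2.1
  have hr0 : 0 < r := by linarith
  -- the flow
  have ha0 : aM 0 = 1 := by
    have h := haM 0 0
    rw [add_zero] at h
    exact (left_eq_mul.1 h)
  have hder : ∀ (g : SL(2, ℝ)) (t : ℝ),
      HasDerivAt (fun t => V ((g * aM t) • I)) (Va (g * aM t)) t := by
    intro g t
    have h1 := (hd g t).1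
    have h2 : (fun τ : ℝ => V ((g * aM τ * aM t) • I)) =
        fun τ : ℝ => (fun t => V ((g * aM t) • I)) (τ + t) := by
      funext τ
      show V ((g * aM τ * aM t) • I) = V ((g * aM (τ + t)) • I)
      rw [haM, mul_assoc]
    rw [h2] at h1
    have h3 : HasDerivAt (fun τ => (fun t => V ((g * aM t) • I)) (τ + t)) (Va (g * aM t))
        (t - t) := by
      rw [sub_self]; exact h1
    have h4 := HasDerivAt.comp_sub_const t t h3
    have h5 : (fun x => (fun τ => (fun t => V ((g * aM t) • I)) (τ + t)) (x - t)) =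
        fun t => V ((g * aM t) • I) := by
      funext x
      show V ((g * aM (x - t + t)) • I) = V ((g * aM x) • I)
      rw [sub_add_cancel]
    rwa [h5] at h4
  -- the packet
  have hcc : Continuous c := (hFL0.1 _ c hc).2.2.2.2.2.2
  have hcs : HasCompactSupport c := (hFL0.1 _ c hc).2.2.2.2.2.1
  have hφC : InvC Γ φ := ⟨INB_cont φ hφ.1, hφ.2.1⟩
  have hW : InvG Γ (Wf (pk r c) φ) :=
    (hGWB Γ (pk r c) φ hΓ (INB_pk r c hcc) (INB_pks r c hcs) hφC).1
  obtain ⟨m, hm⟩ := (hGBD Γ ℂ (Wf (pk r c) φ) hΓ hW).1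
  have hP : Continuous (fun g => ‖Wf (pk r c) φ g‖ ^ 2) := hW.1.norm.pow 2
  have hPm : ∀ g, |(‖Wf (pk r c) φ g‖ ^ 2)| ≤ m ^ 2 := by
    intro g
    rw [abs_of_nonneg (by positivity)]
    exact pow_le_pow_left₀ (norm_nonneg _) (hm g) 2
  have hdom := (hGFD Γ F hΓ hF).1
  have hderI : ∀ t : ℝ, HasDerivAt
      (fun t => iR F (fun g => V ((g * aM t) • I) * ‖Wf (pk r c) φ g‖ ^ 2))
      (iR F (fun g => Va (g * aM t) * ‖Wf (pk r c) φ g‖ ^ 2)) t := fun t =>
    INB_der (dG F) hdom.2.2.1 (fun g => V (g • I)) Va (fun g => ‖Wf (pk r c) φ g‖ ^ 2) B (m ^ 2)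
      iV.1 iVa.1 hP (fun g => (hb g).1) (fun g => (hb g).2.1) hPm hder t
  -- the bound for the derivative
  have hbd : ∀ t : ℝ, |iR F (fun g => Va (g * aM t) * ‖Wf (pk r c) φ g‖ ^ 2)| ≤
      (Real.exp (-t) * B) * (Real.sqrt (qn F c r φ) * Real.sqrt (qn F (xm c) r φ)) +
        20 / r * (B + Real.exp t * B) * (K / r * nn F φ) := by
    intro t
    have h1 := hINA Γ F c r s φ (fun g => V ((g * aM t) • I)) (fun g => Va (g * aM t))
      (fun g => Real.exp (-t) * Vn (g * aM t)) (fun g => Real.exp t * Vl (g * aM t))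
      B (Real.exp (-t) * B) (Real.exp t * B) hΓ hF hc hcr hr hs hφ
      (by
        have h := INB_tr Γ _ iV (aM t) 1
        simp only [one_mul] at h
        exact h)
      (by
        have h := INB_tr Γ _ iVa (aM t) 1
        simp only [one_mul] at h
        exact h)
      (INB_tr Γ _ iVn (aM t) _) (INB_tr Γ _ iVl (aM t) _)
      (fun g => (hd g t).1) (fun g => (hd g t).2.1) (fun g => (hd g t).2.2)
      (fun g => (hb _).1)
      (fun g => by
        rw [abs_mul, abs_of_pos (Real.exp_pos _)]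
        exact mul_le_mul_of_nonneg_left (hb _).2.2.1 (Real.exp_pos _).le)
      (fun g => by
        rw [abs_mul, abs_of_pos (Real.exp_pos _)]
        exact mul_le_mul_of_nonneg_left (hb _).2.2.2 (Real.exp_pos _).le)
    refine h1.trans (add_le_add le_rfl (mul_le_mul_of_nonneg_left (hqS r s φ hr hs2 hφ) ?_))
    have := Real.exp_pos t
    positivity
  -- integration
  have hn0 : 0 ≤ nn F φ := integral_nonneg (fun z => by positivity)
  obtain ⟨X, hX⟩ : ∃ X : ℝ, X = Real.sqrt (qn F c r φ) * Real.sqrt (qn F (xm c) r φ) := ⟨_, rfl⟩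
  obtain ⟨Y, hY⟩ : ∃ Y : ℝ, Y = 20 / r * B * (K / r * nn F φ) := ⟨_, rfl⟩
  have hX0 : 0 ≤ X := by rw [hX]; positivity
  have hY0 : 0 ≤ Y := by rw [hY]; positivity
  have hmv := image_norm_le_of_norm_deriv_right_le_deriv_boundary
    (f := fun t => iR F (fun g => V ((g * aM t) • I) * ‖Wf (pk r c) φ g‖ ^ 2) -
      iR F (fun g => V (g • I) * ‖Wf (pk r c) φ g‖ ^ 2))
    (f' := fun t => iR F (fun g => Va (g * aM t) * ‖Wf (pk r c) φ g‖ ^ 2))
    (a := 0) (b := t) (B := fun t => B * X * (1 - Real.exp (-t)) + Y * (t + Real.exp t - 1))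
    (B' := fun t => B * X * Real.exp (-t) + Y * (1 + Real.exp t))
    (fun x _ => ((hderI x).sub_const _).continuousAt.continuousWithinAt)
    (fun x _ => ((hderI x).sub_const _).hasDerivWithinAt)
    (by
      simp only [ha0, mul_one, sub_self, norm_zero, neg_zero, Real.exp_zero, mul_zero, zero_add,
        le_refl])
    (fun x => by
      have e1 : HasDerivAt (fun t : ℝ => Real.exp (-t)) (-Real.exp (-x)) x := by
        have h := (hasDerivAt_neg x).exp
        simpa using h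
      have e2 := (e1.const_sub 1).const_mul (B * X)
      have e3 := (((hasDerivAt_id x).add (Real.hasDerivAt_exp x)).sub_const 1).const_mul Y
      have e4 := e2.add e3
      simp only [neg_neg] at e4
      exact e4)
    (fun x _ => by
      rw [Real.norm_eq_abs]
      refine (hbd x).trans (le_of_eq ?_)
      rw [← hX, hY]
      ring)
    (right_mem_Icc.2 ht)
  rw [Real.norm_eq_abs] at hmv
  refine hmv.trans ?_
  rw [← hX]
  have e1 : B * X * (1 - Real.exp (-t)) ≤ B * X := by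
    have h1 : 0 ≤ B * X := by positivity
    have h2 : 1 - Real.exp (-t) ≤ 1 := by linarith [Real.exp_pos (-t)]
    calc B * X * (1 - Real.exp (-t)) ≤ B * X * 1 := mul_le_mul_of_nonneg_left h2 h1
      _ = B * X := mul_one _
  have e2 : Y * (t + Real.exp t - 1) ≤ Y * (2 * Real.exp t) := by
    refine mul_le_mul_of_nonneg_left ?_ hY0
    linarith [Real.add_one_le_exp t]
  have e3 : Y * (2 * Real.exp t) = 40 * B * K * Real.exp t / r ^ 2 * nn F φ := by
    rw [hY]
    field_simp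
    ring
  rw [e3] at e2
  exact add_le_add e1 e2

end Pool.Agent.RS
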